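import Pool.Agent.Y88.GR.Main

set_option autoImplicit false

namespace Pool.Agent.Results.MP_2e24f1_ag.PartitionsWithGapEight

open Pool.Agent.W517.Gr Pool.Agent.Y88.GR

/-- **Griffiths' conjecture fails for every Schur form `S_λ` with `λ_1 - λ_2 ≥ 8`, in every rank
`r ≥ λ_1` and on projective spaces of every dimension `n ≥ |λ|`.**

Let `λ ∈ Λ(k, r)` be a partition of `k` with parts at most `r` and `λ_1 ≥ λ_2 + 8`, let `n ≥ k` and
let `M` be a real number. There is a smooth Hermitian metric `h` on the holomorphic vector bundle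
`E = O(1)^r` over `ℙⁿ` such that `(E, h)` is Griffiths positive everywhere, while the Schur form
`S_λ(c(E, h))` takes a real value less than `-M` on the positively oriented real frame
`(e_1, i e_1, …, e_k, i e_k)` of a `k`-dimensional complex subspace of the tangent space at the point
`[1 : 0 : ⋯ : 0]`; in particular (for `M ≥ 0`) it is not a positive form. -/
theorem result (k r n : ℕ) (lam : Fin k → ℕ) (hanti : Antitone lam) (hr : ∀ j, lam j ≤ r)
    (hsum : ∑ j, lam j = k) (hk : 1 < k)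
    (hgap : lam ⟨1, hk⟩ + 8 ≤ lam ⟨0, Nat.zero_lt_of_lt hk⟩) (hn : k ≤ n) (M : ℝ) :
    ∃ h : Cn (n + 1) → Matrix (Fin r) (Fin r) ℂ, IsMetricOnO1 h ∧
      (∀ (i : Fin (n + 1)) (w : Cn n), GriffithsPositiveAt (inChart i h) w) ∧
      (0 ≤ M → ¬ IsPositiveForm k (schurForm (inChart 0 h) lam 0)) ∧
      (evalForm (realFrame fun i : Fin k => (Pi.single (Fin.castLE hn i) 1 : Cn n))
        (schurForm (inChart 0 h) lam 0).1).re < -M ∧
      (evalForm (realFrame fun i : Fin k => (Pi.single (Fin.castLE hn i) 1 : Cn n))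
        (schurForm (inChart 0 h) lam 0).1).im = 0 := by
  have hK : 0 < k := Nat.zero_lt_of_lt hk
  let μ : Fin k → ℕ := fun j => if (j : ℕ) = 0 then lam j - 8 else lam j
  have h0 : lam ⟨0, hK⟩ = μ ⟨0, hK⟩ + 8 := by
    simp only [μ, if_true]
    omega
  have hlam : ∀ j : Fin k, (j : ℕ) ≠ 0 → lam j = μ j := by
    intro j hj
    simp only [μ, if_neg hj]
  have hle : ∀ j : Fin k, (j : ℕ) ≠ 0 → lam j ≤ lam ⟨1, hk⟩ := fun j hj =>
    hanti (Fin.mk_le_of_le_val (Nat.one_le_iff_ne_zero.2 hj))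
  have hμ : Antitone μ := by
    intro i j hij
    have h1 := hanti hij
    have h2 : (i : ℕ) ≤ j := hij
    simp only [μ]
    split_ifs with hj hi hi
    · have : i = j := Fin.ext (hi.trans hj.symm)
      rw [this]
    · omega
    · have h3 := hle j hj
      have h4 : i = ⟨0, hK⟩ := Fin.ext hi
      rw [h4]
      omega
    · exact h1
  have hs : ∑ j, μ j + 8 = k := by
    have h1 : ∑ j, lam j = ∑ j, (μ j + if j = ⟨0, hK⟩ then 8 else 0) := by
      refine Finset.sum_congr rfl fun j _ => ?_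
      by_cases hj : (j : ℕ) = 0
      · have h4 : j = ⟨0, hK⟩ := Fin.ext hj
        rw [h4, if_pos rfl, h0]
      · rw [if_neg (fun h => hj (by rw [h])), hlam j hj, add_zero]
    rw [Finset.sum_add_distrib, Finset.sum_ite_eq' Finset.univ, if_pos (Finset.mem_univ _)] at h1
    rw [← h1, hsum]
  have hr8 : 8 ≤ r := by
    have := hr ⟨0, hK⟩
    omega
  obtain ⟨r', rfl⟩ : ∃ r', r = 8 + r' := ⟨r - 8, by omega⟩
  obtain ⟨k', rfl⟩ : ∃ k', k = 8 + k' := ⟨k - 8, by omega⟩
  obtain ⟨m, rfl⟩ : ∃ m, n = 8 + k' + m := ⟨n - (8 + k'), by omega⟩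
  have hr' : ∀ j, μ j ≤ r' := by
    intro j
    have h1 : μ j ≤ μ ⟨0, hK⟩ := hμ (Fin.mk_le_of_le_val (Nat.zero_le _))
    have h2 := hr ⟨0, hK⟩
    omega
  obtain ⟨h, h1, h2, h3, h4⟩ := main (m := m) hK lam μ hμ hr' (k' := k') (by omega) h0 hlam M
  exact ⟨h, h1, h2, fun hM => not_positive hn _ (lt_of_lt_of_le h3 (by linarith)), h3, h4⟩

end Pool.Agent.Results.MP_2e24f1_ag.PartitionsWithGapEight
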